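import Pool.Agent.TH55.PowE

set_option autoImplicit false

open MeasureTheory

namespace Pool.Agent.Results.MP_dd244f_an.LinearBoundPowers

/-- For every real `p ≥ 2`, every `n ≥ 1` and every Schwartz function `f`, the Fourier multiplier
with symbol `(conj ξ / ξ) ^ n` satisfies `‖T^n f‖_p ≤ C_n (p - 1) ‖f‖_p` with
`C_n = (n + 1) / 2 * ((n + 1) / (n - 1)) ^ ((n - 1) / 2)` (and `C_1 = 1`). -/
theorem result (p : ℝ) (hp : 2 ≤ p) (n : ℕ) (hn : 1 ≤ n) (f : SchwartzMap ℂ ℂ) :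
      eLpNorm
        (fun z : ℂ => ∫ ξ : ℂ,
          Complex.exp (2 * (Real.pi : ℂ) * Complex.I * (((z.re * ξ.re + z.im * ξ.im : ℝ)) : ℂ)) *
            ((starRingEnd ℂ ξ / ξ) ^ n *
              ∫ x : ℂ, Complex.exp (-(2 * (Real.pi : ℂ) * Complex.I *
                (((x.re * ξ.re + x.im * ξ.im : ℝ)) : ℂ))) * f x))
        (ENNReal.ofReal p) volume
      ≤ ENNReal.ofReal (((n : ℝ) + 1) / 2 * (((n : ℝ) + 1) / ((n : ℝ) - 1)) ^ (((n : ℝ) - 1) / 2)
          * (p - 1))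
        * eLpNorm (⇑f) (ENNReal.ofReal p) volume :=
  TH55.PowA.main p hp n hn f

end Pool.Agent.Results.MP_dd244f_an.LinearBoundPowers
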